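import Pool.Agent.Designs.Exponent

set_option autoImplicit false

namespace Pool.Agent.Results.MP_b59edb_co.FullExponent

open Pool.Agent.Work.MP_b59edb_co

/-- For all `k ≥ t + 2 ≥ 4`, the largest exponent `c` such that every Steiner system `S(t,k,v)`,
viewed as a `C`-hypergraph, has upper chromatic number `≥ C v ^ c`, is
`(k - t - 1) / (k - 2)`. -/
theorem result (k t : ℕ) (ht : 2 ≤ t) (hk : t + 2 ≤ k) :
    IsGreatest {c : ℝ | AdmissibleExponent k t c} (((k : ℝ) - t - 1) / ((k : ℝ) - 2)) :=
  Pool.Agent.Kv.exponent_value ht hk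

end Pool.Agent.Results.MP_b59edb_co.FullExponent
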